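import Pool.Agent.Run7.h951.BG.Stm

/-!
# Piece LAPC of project BG (helper951): the distributional Laplacian of the positive logarithm of the norm
-/

open MeasureTheory Filter Topology Real

namespace Pool.Agent.Run7.h175.BG

noncomputable section

open Pool.Agent.Run7.h951.BG

/-- polar coordinates -/
def P (p : ℝ × ℝ) : ℂ := (p.1 : ℂ) * Complex.exp (p.2 * Complex.I)

theorem contDiff_P : ContDiff ℝ (⊤ : ℕ∞) P := by
  unfold P
  have h1 : ContDiff ℝ (⊤ : ℕ∞) (fun p : ℝ × ℝ => (p.1 : ℂ)) := Complex.ofRealCLM.contDiff.comp contDiff_fst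
  have h2 : ContDiff ℝ (⊤ : ℕ∞) (fun p : ℝ × ℝ => (p.2 : ℂ)) := Complex.ofRealCLM.contDiff.comp contDiff_snd
  exact h1.mul (Complex.contDiff_exp.comp (h2.mul contDiff_const))

theorem norm_P (p : ℝ × ℝ) (hp : 0 ≤ p.1) : ‖P p‖ = p.1 := by
  unfold P
  rw [norm_mul, Complex.norm_exp_ofReal_mul_I, mul_one, Complex.norm_real, Real.norm_eq_abs, abs_of_nonneg hp]

theorem P_eq (p : ℝ × ℝ) : Complex.polarCoord.symm p = P p := by
  rw [Complex.polarCoord_symm_apply, P, Complex.exp_mul_I]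
  push_cast
  rfl

theorem P_pi (r : ℝ) : P (r, π) = P (r, -π) := by
  unfold P
  simp only
  rw [Complex.exp_pi_mul_I]
  have : Complex.exp (((-π : ℝ) : ℂ) * Complex.I) = -1 := by
    push_cast
    rw [neg_mul, Complex.exp_neg, Complex.exp_pi_mul_I]
    norm_num
  rw [this]

variable (φ : ℂ → ℝ)

def F₁ (p : ℝ × ℝ) : ℝ := fderiv ℝ φ (P p) (P p)

def F₂ (p : ℝ × ℝ) : ℝ := fderiv ℝ φ (P p) (Complex.I * P p)

variable {φ}

theorem contDiff_F₁ (h : ContDiff ℝ (⊤ : ℕ∞) φ) : ContDiff ℝ (⊤ : ℕ∞) (F₁ φ) := by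
  have h1 : ContDiff ℝ (⊤ : ℕ∞) (fderiv ℝ φ) := h.fderiv_right (by simp)
  exact (h1.comp contDiff_P).clm_apply contDiff_P

theorem contDiff_F₂ (h : ContDiff ℝ (⊤ : ℕ∞) φ) : ContDiff ℝ (⊤ : ℕ∞) (F₂ φ) := by
  have h1 : ContDiff ℝ (⊤ : ℕ∞) (fderiv ℝ φ) := h.fderiv_right (by simp)
  exact (h1.comp contDiff_P).clm_apply (contDiff_const.mul contDiff_P)

theorem deriv_fst {F : ℝ × ℝ → ℝ} (h : ContDiff ℝ (⊤ : ℕ∞) F) (r θ : ℝ) :
    HasDerivAt (fun t : ℝ => F (t, θ)) (fderiv ℝ F (r, θ) (1, 0)) r := by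
  have h1 : HasFDerivAt F (fderiv ℝ F (r, θ)) (r, θ) :=
    (h.differentiable (by simp)).differentiableAt.hasFDerivAt
  exact HasFDerivAt.comp_hasDerivAt (f := fun t : ℝ => (t, θ)) r h1 ((hasDerivAt_id r).prodMk (hasDerivAt_const r θ))

theorem deriv_snd {F : ℝ × ℝ → ℝ} (h : ContDiff ℝ (⊤ : ℕ∞) F) (r θ : ℝ) :
    HasDerivAt (fun t : ℝ => F (r, t)) (fderiv ℝ F (r, θ) (0, 1)) θ := by
  have h1 : HasFDerivAt F (fderiv ℝ F (r, θ)) (r, θ) :=
    (h.differentiable (by simp)).differentiableAt.hasFDerivAt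
  exact HasFDerivAt.comp_hasDerivAt (f := fun t : ℝ => (r, t)) θ h1 ((hasDerivAt_const θ r).prodMk (hasDerivAt_id θ))

theorem cont_fst {F : ℝ × ℝ → ℝ} (h : ContDiff ℝ (⊤ : ℕ∞) F) (v : ℝ × ℝ) : Continuous fun p => fderiv ℝ F p v :=
  (h.continuous_fderiv (by simp)).clm_apply continuous_const

/-- LAPP in the notation of this file -/
theorem lapp (hL : S_LAPP) (h : ContDiff ℝ (⊤ : ℕ∞) φ) (r θ : ℝ) (hr : 0 < r) :
    fderiv ℝ (F₁ φ) (r, θ) (1, 0) + fderiv ℝ (F₂ φ) (r, θ) (0, 1) / r = r * Laplacian.laplacian φ (P (r, θ)) := by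
  obtain ⟨a, b, ha, hb, hab⟩ := hL φ h r θ hr
  have h1 := deriv_fst (contDiff_F₁ h) r θ
  have h2 := deriv_snd (contDiff_F₂ h) r θ
  have e1 : a = fderiv ℝ (F₁ φ) (r, θ) (1, 0) := ha.unique h1
  have e2 : b = fderiv ℝ (F₂ φ) (r, θ) (0, 1) := hb.unique h2
  rw [← e1, ← e2, hab]
  rfl

/-- the radial integral -/
theorem radial (h : ContDiff ℝ (⊤ : ℕ∞) φ) (R θ : ℝ) (hR : 1 < R) (h0 : φ (P (R, θ)) = 0) (h1 : F₁ φ (R, θ) = 0) :
    ∫ r in (1 : ℝ)..R, Real.log r * fderiv ℝ (F₁ φ) (r, θ) (1, 0) = φ (P (1, θ)) := by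
  have hd : ∀ r ∈ Set.uIcc 1 R, HasDerivAt (fun t : ℝ => Real.log t * F₁ φ (t, θ) - φ (P (t, θ)))
      (Real.log r * fderiv ℝ (F₁ φ) (r, θ) (1, 0)) r := by
    intro r hr
    rw [Set.uIcc_of_le hR.le] at hr
    have hr0 : 0 < r := lt_of_lt_of_le one_pos hr.1
    have e1 := (Real.hasDerivAt_log hr0.ne').mul (deriv_fst (contDiff_F₁ h) r θ)
    have e2 : HasDerivAt (fun t : ℝ => φ (P (t, θ))) (r⁻¹ * F₁ φ (r, θ)) r := by
      have e3 : HasFDerivAt φ (fderiv ℝ φ (P (r, θ))) (P (r, θ)) :=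
        (h.differentiable (by simp)).differentiableAt.hasFDerivAt
      have e4 : HasDerivAt (fun t : ℝ => P (t, θ)) (Complex.exp (θ * Complex.I)) r := by
        unfold P
        simpa using (Complex.ofRealCLM.hasDerivAt (x := r)).mul_const (Complex.exp (θ * Complex.I))
      have e5 := e3.comp_hasDerivAt r e4
      have e6 : fderiv ℝ φ (P (r, θ)) (Complex.exp (θ * Complex.I)) = r⁻¹ * F₁ φ (r, θ) := by
        unfold F₁
        have : fderiv ℝ φ (P (r, θ)) (P (r, θ)) = r * fderiv ℝ φ (P (r, θ)) (Complex.exp (θ * Complex.I)) := by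
          rw [← smul_eq_mul, ← map_smul]
          congr 1
        rw [this, ← mul_assoc, inv_mul_cancel₀ hr0.ne', one_mul]
      rw [← e6]
      exact e5
    have e7 := e1.sub e2
    refine e7.congr_deriv ?_
    simp only [F₁]
    ring
  have hcont : ContinuousOn (fun r : ℝ => Real.log r * fderiv ℝ (F₁ φ) (r, θ) (1, 0)) (Set.uIcc 1 R) := by
    rw [Set.uIcc_of_le hR.le]
    apply ContinuousOn.mul
    · apply Real.continuousOn_log.mono
      intro r hr
      simp only [Set.mem_compl_iff, Set.mem_singleton_iff]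
      have := hr.1
      intro h3
      linarith
    · exact ((cont_fst (contDiff_F₁ h) (1, 0)).comp (by fun_prop : Continuous fun r : ℝ => (r, θ))).continuousOn
  rw [intervalIntegral.integral_eq_sub_of_hasDerivAt hd hcont.intervalIntegrable]
  rw [h0, h1, Real.log_one]
  ring

theorem t_LAPC : S_LAPP → S_LAPC := by
  intro hL φ hφ hsupp
  -- the radius
  obtain ⟨R₀, hR₀⟩ := hsupp.isCompact.isBounded.subset_closedBall (0 : ℂ)
  set R : ℝ := max R₀ 1 + 1 with hR
  have hR1 : 1 < R := by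
    have := le_max_right R₀ 1
    rw [hR]; linarith
  have hzero : ∀ z : ℂ, R ≤ ‖z‖ → φ =ᶠ[𝓝 z] 0 := by
    intro z hz
    apply notMem_tsupport_iff_eventuallyEq.1
    intro hmem
    have h1 := hR₀ hmem
    rw [mem_closedBall_zero_iff] at h1
    have := le_max_left R₀ 1
    rw [hR] at hz
    linarith
  have hφ0 : ∀ z : ℂ, R ≤ ‖z‖ → φ z = 0 := fun z hz => (hzero z hz).eq_of_nhds
  have hfd : ∀ z : ℂ, R ≤ ‖z‖ → fderiv ℝ φ z = 0 := by
    intro z hz
    rw [(hzero z hz).fderiv_eq]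
    simp
  have hlap : ∀ z : ℂ, R ≤ ‖z‖ → Laplacian.laplacian φ z = 0 := by
    intro z hz
    have h1 := InnerProductSpace.laplacian_congr_nhds (hzero z hz)
    rw [h1.eq_of_nhds]
    have h2 : Laplacian.laplacian (fun _ : ℂ => (0 : ℝ)) = 0 := InnerProductSpace.laplacian_const
    exact congrFun h2 z
  set a : ℝ × ℝ → ℝ := fun p => fderiv ℝ (F₁ φ) p (1, 0) with ha
  set b : ℝ × ℝ → ℝ := fun p => fderiv ℝ (F₂ φ) p (0, 1) with hb
  have hac : Continuous a := cont_fst (contDiff_F₁ hφ) (1, 0)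
  have hbc : Continuous b := cont_fst (contDiff_F₂ hφ) (0, 1)
  rw [← Complex.integral_comp_polarCoord_symm]
  have step1 : ∫ p in polarCoord.target, p.1 • (Real.posLog ‖Complex.polarCoord.symm p‖ *
      Laplacian.laplacian φ (Complex.polarCoord.symm p)) =
      ∫ p in Set.Ioc (1 : ℝ) R ×ˢ Set.Ioo (-π) π, p.1 • (Real.posLog ‖Complex.polarCoord.symm p‖ *
      Laplacian.laplacian φ (Complex.polarCoord.symm p)) := by
    rw [polarCoord_target]
    apply setIntegral_eq_of_subset_of_forall_sdiff_eq_zero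
    · exact measurableSet_Ioi.prod measurableSet_Ioo
    · intro p hp
      exact ⟨lt_trans one_pos hp.1.1, hp.2⟩
    · rintro p ⟨⟨hp1, hp2⟩, hp3⟩
      have hp1' : 0 < p.1 := hp1
      rw [P_eq, norm_P p hp1'.le, smul_eq_mul]
      by_cases h1 : p.1 ≤ 1
      · have : Real.posLog p.1 = 0 := by
          rw [Real.posLog_eq_zero_iff, abs_of_pos hp1']
          exact h1
        rw [this]
        ring
      · have h2 : R < p.1 := by
          by_contra h3
          exact hp3 ⟨⟨not_le.1 h1, not_lt.1 h3⟩, hp2⟩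
        rw [hlap (P p) (by rw [norm_P p hp1'.le]; exact h2.le)]
        ring
  rw [step1]
  have hint : ∀ G : ℝ × ℝ → ℝ, ContinuousOn G (Set.Icc (1 : ℝ) R ×ˢ Set.Icc (-π) π) →
      IntegrableOn G (Set.Ioc (1 : ℝ) R ×ˢ Set.Ioo (-π) π) (volume.prod volume) := by
    intro G hG
    have h1 : IntegrableOn G (Set.Icc (1 : ℝ) R ×ˢ Set.Icc (-π) π) (volume.prod volume) :=
      hG.integrableOn_compact (isCompact_Icc.prod isCompact_Icc)
    exact h1.mono_set (Set.prod_mono Set.Ioc_subset_Icc_self Set.Ioo_subset_Icc_self)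
  have hlogc : ContinuousOn (fun p : ℝ × ℝ => Real.log p.1) (Set.Icc (1 : ℝ) R ×ˢ Set.Icc (-π) π) := by
    apply ContinuousOn.log continuous_fst.continuousOn
    rintro p ⟨hp, -⟩
    have := hp.1
    intro h3
    rw [h3] at this
    linarith
  have hG1 : ContinuousOn (fun p : ℝ × ℝ => Real.log p.1 * a p) (Set.Icc (1 : ℝ) R ×ˢ Set.Icc (-π) π) :=
    hlogc.mul hac.continuousOn
  have hG2 : ContinuousOn (fun p : ℝ × ℝ => Real.log p.1 / p.1 * b p) (Set.Icc (1 : ℝ) R ×ˢ Set.Icc (-π) π) := by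
    apply (hlogc.div continuous_fst.continuousOn ?_).mul hbc.continuousOn
    rintro p ⟨hp, -⟩
    have := hp.1
    intro h3
    rw [h3] at this
    linarith
  have step2 : ∫ p in Set.Ioc (1 : ℝ) R ×ˢ Set.Ioo (-π) π, p.1 • (Real.posLog ‖Complex.polarCoord.symm p‖ *
      Laplacian.laplacian φ (Complex.polarCoord.symm p)) =
      ∫ p in Set.Ioc (1 : ℝ) R ×ˢ Set.Ioo (-π) π, (Real.log p.1 * a p + Real.log p.1 / p.1 * b p) := by
    apply setIntegral_congr_fun (measurableSet_Ioc.prod measurableSet_Ioo)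
    rintro ⟨r, θ⟩ ⟨hr, hθ⟩
    have hr1 : 1 < r := hr.1
    have hr0 : 0 < r := by linarith
    have h1 := lapp hL hφ r θ hr0
    simp only [smul_eq_mul]
    rw [P_eq, norm_P (r, θ) hr0.le, Real.posLog_eq_log (by rw [abs_of_pos hr0]; exact hr1.le)]
    simp only
    have h2 : r * (Real.log r * Laplacian.laplacian φ (P (r, θ))) =
        Real.log r * (r * Laplacian.laplacian φ (P (r, θ))) := by ring
    rw [h2, ← h1]
    simp only [ha, hb]
    ring
  rw [step2, Measure.volume_eq_prod, integral_add (hint _ hG1) (hint _ hG2)]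
  -- the angular part vanishes
  have hpi : -π ≤ π := by linarith [Real.pi_pos]
  have step3 : ∫ p in Set.Ioc (1 : ℝ) R ×ˢ Set.Ioo (-π) π, Real.log p.1 / p.1 * b p ∂(volume.prod volume) = 0 := by
    rw [setIntegral_prod _ (hint _ hG2)]
    apply setIntegral_eq_zero_of_forall_eq_zero
    intro r _
    simp only
    rw [integral_const_mul]
    have h1 : ∫ θ in Set.Ioo (-π) π, b (r, θ) = 0 := by
      rw [← integral_Ioc_eq_integral_Ioo, ← intervalIntegral.integral_of_le hpi]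
      rw [intervalIntegral.integral_eq_sub_of_hasDerivAt (f := fun t => F₂ φ (r, t))
        (fun θ _ => deriv_snd (contDiff_F₂ hφ) r θ)
        (Continuous.intervalIntegrable (hbc.comp (by fun_prop)) _ _)]
      simp only [F₂, P_pi]
      ring
    rw [h1, mul_zero]
  -- the radial part
  have step4 : ∫ p in Set.Ioc (1 : ℝ) R ×ˢ Set.Ioo (-π) π, Real.log p.1 * a p ∂(volume.prod volume) =
      ∫ θ in (-π)..π, φ (circleMap 0 1 θ) := by
    rw [← setIntegral_prod_swap, setIntegral_prod]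
    · rw [intervalIntegral.integral_of_le hpi, integral_Ioc_eq_integral_Ioo]
      apply setIntegral_congr_fun measurableSet_Ioo
      intro θ _
      simp only [Prod.swap_prod_mk]
      rw [← intervalIntegral.integral_of_le hR1.le, radial hφ R θ hR1]
      · unfold P circleMap
        simp
      · exact hφ0 _ (by rw [norm_P (R, θ) (by simp only; linarith)])
      · unfold F₁
        rw [hfd _ (by rw [norm_P (R, θ) (by simp only; linarith)])]
        simp
    · have h1 : ContinuousOn (fun z : ℝ × ℝ => (fun p : ℝ × ℝ => Real.log p.1 * a p) z.swap)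
          (Set.Icc (-π) π ×ˢ Set.Icc (1 : ℝ) R) :=
        hG1.comp continuous_swap.continuousOn (fun z hz => ⟨hz.2, hz.1⟩)
      have h2 : IntegrableOn (fun z : ℝ × ℝ => (fun p : ℝ × ℝ => Real.log p.1 * a p) z.swap)
          (Set.Icc (-π) π ×ˢ Set.Icc (1 : ℝ) R) (volume.prod volume) :=
        h1.integrableOn_compact (isCompact_Icc.prod isCompact_Icc)
      exact h2.mono_set (Set.prod_mono Set.Ioo_subset_Icc_self Set.Ioc_subset_Icc_self)
  rw [step3, step4, add_zero, Real.circleAverage_def, smul_eq_mul, ← mul_assoc,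
    mul_inv_cancel₀ Real.two_pi_pos.ne', one_mul]
  have hper : Function.Periodic (fun θ : ℝ => φ (circleMap 0 1 θ)) (2 * π) := by
    intro θ
    simp only [periodic_circleMap 0 1 θ]
  have h3 := hper.intervalIntegral_add_eq (-π) 0
  rw [zero_add] at h3
  rw [← h3]
  congr 1
  ring

end

end Pool.Agent.Run7.h175.BG
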