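import Pool.Agent.Run7.h951.BG.Stm

/-!
# Piece MAX of project BG (helper951): the maximum principle outside the disc
-/

open MeasureTheory Filter Topology Real

namespace Pool.Agent.Run7.h175.BG

noncomputable section

open Pool.Agent.Run7.h951.BG

theorem ereal_le (x : EReal) (p y : ℝ) :
    x + ((-p : ℝ) : EReal) ≤ (y : EReal) ↔ x ≤ ((p + y : ℝ) : EReal) := by
  induction x with
  | bot => simp
  | coe a =>
    rw [← EReal.coe_add, EReal.coe_le_coe_iff, EReal.coe_le_coe_iff]
    constructor <;> intro h <;> linarith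
  | top =>
    rw [EReal.top_add_coe]
    constructor
    · intro h
      exact absurd (top_le_iff.1 h) (EReal.coe_ne_top _)
    · intro h
      exact absurd (top_le_iff.1 h) (EReal.coe_ne_top _)

/-- the average of the bump is positive -/
theorem bump_pos (z q : ℂ) (r s : ℝ) (hq : ‖q - z‖ = r) :
    0 < Real.circleAverage (fun w : ℂ => max 0 (1 - ‖w - q‖ / s)) z r := by
  have hr : 0 ≤ r := hq ▸ norm_nonneg _
  have hcont : Continuous (fun w : ℂ => max (0 : ℝ) (1 - ‖w - q‖ / s)) := by fun_prop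
  rw [Real.circleAverage_def]
  have hq' : q ∈ Metric.sphere z |r| := by
    rw [abs_of_nonneg hr, mem_sphere_iff_norm, hq]
  rw [← image_circleMap_Ioc] at hq'
  obtain ⟨θ, hθ, hθq⟩ := hq'
  have h : 0 < ∫ t in (0 : ℝ)..(2 * π), (fun w : ℂ => max (0 : ℝ) (1 - ‖w - q‖ / s)) (circleMap z r t) := by
    apply intervalIntegral.integral_pos Real.two_pi_pos
    · exact (hcont.comp (continuous_circleMap z r)).continuousOn
    · intro x _
      exact le_max_left _ _
    · refine ⟨θ, Set.Ioc_subset_Icc_self hθ, ?_⟩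
      simp only
      rw [hθq]
      simp
  have h2 : 0 < (2 * π)⁻¹ := inv_pos.2 Real.two_pi_pos
  rw [smul_eq_mul]
  exact mul_pos h2 h

/-- the average of `log ‖w‖` over a circle which does not meet the open unit disc -/
theorem avg_posLog (z : ℂ) (r : ℝ) (hr : 0 < r) (hz : 1 + r ≤ ‖z‖) :
    Real.circleAverage (fun w : ℂ => Real.posLog ‖w‖) z r = Real.log ‖z‖ := by
  have h1 : Real.circleAverage (fun w : ℂ => Real.posLog ‖w‖) z r =
      Real.circleAverage (fun w : ℂ => Real.log ‖w - 0‖) z r := by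
    apply Real.circleAverage_congr_sphere
    intro w hw
    rw [abs_of_pos hr, mem_sphere_iff_norm] at hw
    have h2 : 1 ≤ ‖w‖ := by
      have h3 : ‖z‖ - ‖w - z‖ ≤ ‖w‖ := by
        have := norm_sub_norm_le z (z - w)
        rw [norm_sub_rev z w] at this
        simpa using this
      linarith
    simp only [sub_zero]
    exact Real.posLog_eq_log (by rw [abs_of_nonneg (norm_nonneg _)]; exact h2)
  rw [h1, circleAverage_log_norm_sub_const_eq_log_radius_add_posLog hr.ne', sub_zero,
    Real.posLog_eq_log, Real.log_mul (inv_pos.2 hr).ne' (by linarith : (0 : ℝ) < ‖z‖).ne', Real.log_inv]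
  · ring
  · rw [abs_of_nonneg (by positivity)]
    rw [inv_mul_eq_div, le_div_iff₀ hr]
    linarith

theorem t_MAX : S_MAX := by
  intro u hu hC hK z₀
  obtain ⟨C, hC⟩ := hC
  obtain ⟨husc, htop, hsub⟩ := hu
  by_contra hcon
  rw [not_le] at hcon
  have hz₀ : 1 < ‖z₀‖ := by
    by_contra h
    rw [not_lt] at h
    have h1 := hK z₀ (by simpa using h)
    have h2 : (0 : EReal) ≤ ((Real.posLog ‖z₀‖ : ℝ) : EReal) := by
      exact_mod_cast Real.posLog_nonneg
    exact absurd (lt_of_lt_of_le hcon h1) (not_lt.2 h2)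
  have hplog : ∀ w : ℂ, 1 ≤ ‖w‖ → Real.posLog ‖w‖ = Real.log ‖w‖ := fun w hw =>
    Real.posLog_eq_log (by rw [abs_of_nonneg (norm_nonneg _)]; exact hw)
  -- the value at z₀
  obtain ⟨a, ha⟩ : ∃ a : ℝ, u z₀ = (a : EReal) := by
    refine ⟨(u z₀).toReal, (EReal.coe_toReal (htop z₀) ?_).symm⟩
    intro h
    rw [h] at hcon
    exact absurd hcon (not_lt.2 bot_le)
  set L := Real.posLog ‖z₀‖ with hL
  have hLpos : 0 < L := by
    rw [hL, hplog z₀ hz₀.le]
    exact Real.log_pos hz₀
  have haL : L < a := by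
    rw [ha] at hcon
    exact_mod_cast hcon
  set δ := (a - L) / (2 * L) with hδ
  have hδpos : 0 < δ := div_pos (by linarith) (by linarith)
  have hδL : (1 + δ) * L < a := by
    have : δ * L = (a - L) / 2 := by rw [hδ]; field_simp
    nlinarith
  have hpc : Continuous fun w : ℂ => Real.posLog ‖w‖ := by
    exact Real.continuous_posLog.comp continuous_norm
  set h : ℂ → EReal := fun w => u w + ((-((1 + δ) * Real.posLog ‖w‖) : ℝ) : EReal) with hh
  have hhusc : UpperSemicontinuous h := by
    apply UpperSemicontinuous.add' husc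
    · apply Continuous.upperSemicontinuous
      exact continuous_coe_real_ereal.comp (by fun_prop)
    · intro x
      exact EReal.continuousAt_add (Or.inl (htop x)) (Or.inr (EReal.coe_ne_top _))
  have hle : ∀ (w : ℂ) (y : ℝ), h w ≤ (y : EReal) ↔
      u w ≤ (((1 + δ) * Real.posLog ‖w‖ + y : ℝ) : EReal) := fun w y => ereal_le _ _ _
  have hhz₀ : h z₀ = ((a - (1 + δ) * L : ℝ) : EReal) := by
    simp only [hh]
    rw [ha, ← hL, ← EReal.coe_add]
    congr 1
  -- growth
  set R := max ‖z₀‖ (Real.exp (|C| / δ)) with hR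
  have hgrow : ∀ w : ℂ, R < ‖w‖ → h w ≤ 0 := by
    intro w hw
    have h1 : 1 ≤ ‖w‖ := by
      have := lt_of_le_of_lt (le_max_left _ _) hw
      linarith
    have h2 : |C| / δ < Real.log ‖w‖ := by
      rw [Real.lt_log_iff_exp_lt (by linarith)]
      exact lt_of_le_of_lt (le_max_right _ _) hw
    rw [div_lt_iff₀ hδpos] at h2
    have h3 : h w ≤ ((0 : ℝ) : EReal) := by
      rw [hle]
      refine le_trans (hC w) ?_
      rw [hplog w h1]
      apply EReal.coe_le_coe_iff.2
      have := le_abs_self C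
      nlinarith
    exact_mod_cast h3
  -- the compact annulus
  set K : Set ℂ := Metric.closedBall 0 R ∩ {w | 1 ≤ ‖w‖} with hKdef
  have hKc : IsCompact K := (isCompact_closedBall 0 R).inter_right (isClosed_le continuous_const continuous_norm)
  have hz₀K : z₀ ∈ K := by
    refine ⟨?_, hz₀.le⟩
    simp only [Metric.mem_closedBall, dist_zero_right]
    exact le_max_left _ _
  obtain ⟨z₁, hz₁K, hz₁⟩ := UpperSemicontinuousOn.exists_isMaxOn ⟨z₀, hz₀K⟩ hKc (hhusc.upperSemicontinuousOn K)
  have hz₁' : ∀ w ∈ K, h w ≤ h z₁ := fun w hw => hz₁ hw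
  have hpos : ((0 : ℝ) : EReal) < h z₁ := by
    refine lt_of_lt_of_le ?_ (hz₁' z₀ hz₀K)
    rw [hhz₀]
    exact EReal.coe_lt_coe_iff.2 (by linarith)
  have htoph : ∀ w, h w ≠ ⊤ := by
    intro w
    simp only [hh]
    exact EReal.add_ne_top (htop w) (EReal.coe_ne_top _)
  obtain ⟨m, hm⟩ : ∃ m : ℝ, h z₁ = (m : EReal) := by
    refine ⟨(h z₁).toReal, (EReal.coe_toReal (htoph z₁) ?_).symm⟩
    intro hb
    rw [hb] at hpos
    exact absurd hpos (not_lt.2 bot_le)
  rw [hm] at hpos
  have hmpos : 0 < m := EReal.coe_lt_coe_iff.1 hpos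
  have hall : ∀ w : ℂ, 1 ≤ ‖w‖ → h w ≤ (m : EReal) := by
    intro w hw
    by_cases hwR : ‖w‖ ≤ R
    · rw [← hm]
      exact hz₁' w ⟨by simpa using hwR, hw⟩
    · refine le_trans (hgrow w (not_le.1 hwR)) ?_
      exact_mod_cast hmpos.le
  -- a point of minimal norm where the maximum is attained
  have hAc : IsCompact (K ∩ h ⁻¹' Set.Ici (m : EReal)) := hKc.inter_right (hhusc.isClosed_preimage _)
  obtain ⟨zs, hzs, hzsmin⟩ := hAc.exists_isMinOn ⟨z₁, hz₁K, by simp [hm]⟩ continuous_norm.continuousOn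
  have hzs' : ∀ w ∈ K ∩ h ⁻¹' Set.Ici (m : EReal), ‖zs‖ ≤ ‖w‖ := fun w hw => hzsmin hw
  obtain ⟨⟨hzsR, hzs1⟩, hzsm⟩ := hzs
  have hzsm' : (m : EReal) ≤ h zs := hzsm
  have hzsR' : ‖zs‖ ≤ R := by simpa using hzsR
  have hzs1' : 1 ≤ ‖zs‖ := hzs1
  have hzs2 : 1 < ‖zs‖ := by
    rcases lt_or_eq_of_le hzs1' with h1 | h1
    · exact h1
    · exfalso
      have h2 : u zs ≤ 0 := hK zs (by simp [← h1])
      have h3 : h zs ≤ ((0 : ℝ) : EReal) := by
        rw [hle, hplog zs hzs1', ← h1]
        simpa using h2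
      have h4 := le_trans hzsm' h3
      have h5 := EReal.coe_le_coe_iff.1 h4
      linarith
  set r := (‖zs‖ - 1) / 2 with hr
  have hrpos : 0 < r := by rw [hr]; linarith
  have hzpos : 0 < ‖zs‖ := by linarith
  have hrz : r / ‖zs‖ < 1 := by rw [div_lt_one hzpos, hr]; linarith
  set q : ℂ := ((1 - r / ‖zs‖ : ℝ) : ℂ) * zs with hq
  have hqn : ‖q‖ = ‖zs‖ - r := by
    rw [hq, norm_mul, Complex.norm_real, Real.norm_eq_abs, abs_of_pos (by linarith)]
    field_simp
  have hqz : ‖q - zs‖ = r := by
    have : q - zs = ((-(r / ‖zs‖) : ℝ) : ℂ) * zs := by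
      rw [hq]; push_cast; ring
    rw [this, norm_mul, Complex.norm_real, Real.norm_eq_abs, abs_neg, abs_of_pos (div_pos hrpos hzpos)]
    field_simp
  have hhq : h q < (m : EReal) := by
    by_contra hcon2
    rw [not_lt] at hcon2
    have h1 : q ∈ K ∩ h ⁻¹' Set.Ici (m : EReal) := by
      refine ⟨⟨?_, ?_⟩, hcon2⟩
      · simp only [Metric.mem_closedBall, dist_zero_right]
        linarith
      · show 1 ≤ ‖q‖
        rw [hqn, hr]; linarith
    have h2 := hzs' q h1
    linarith
  obtain ⟨m', hm'1, hm'2⟩ := EReal.lt_iff_exists_real_btwn.1 hhq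
  have hm'm : m' < m := EReal.coe_lt_coe_iff.1 hm'2
  have hev := hhusc q _ hm'1
  obtain ⟨s, hs, hsball⟩ := Metric.eventually_nhds_iff_ball.1 hev
  -- the majorant
  set b : ℂ → ℝ := fun w => max 0 (1 - ‖w - q‖ / s) with hb
  have hbc : Continuous b := by rw [hb]; fun_prop
  set g : ℂ → ℝ := fun w => (1 + δ) * Real.posLog ‖w‖ + (m - (m - m') * b w) with hg
  have hgc : Continuous g := by rw [hg]; fun_prop
  have hmaj : ∀ w, ‖w - zs‖ = r → u w ≤ ((g w : ℝ) : EReal) := by
    intro w hw
    have hw1 : 1 ≤ ‖w‖ := by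
      have h3 : ‖zs‖ - ‖w - zs‖ ≤ ‖w‖ := by
        have := norm_sub_norm_le zs (zs - w)
        rw [norm_sub_rev zs w] at this
        simpa using this
      rw [hw, hr] at h3
      linarith
    simp only [hg]
    rw [← hle]
    by_cases hws : ‖w - q‖ < s
    · have h1 : h w < (m' : EReal) := hsball w (by rwa [Metric.mem_ball, dist_eq_norm])
      refine le_trans h1.le (EReal.coe_le_coe_iff.2 ?_)
      have h2 : b w ≤ 1 := by
        simp only [hb]
        apply max_le zero_le_one
        have : 0 ≤ ‖w - q‖ / s := by positivity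
        linarith
      nlinarith
    · have h2 : b w = 0 := by
        simp only [hb]
        apply max_eq_left
        rw [not_lt] at hws
        have : 1 ≤ ‖w - q‖ / s := by rwa [le_div_iff₀ hs, one_mul]
        linarith
      rw [h2, mul_zero, sub_zero]
      exact hall w hw1
  have hfin := hsub zs r hrpos g hgc hmaj
  have havg : Real.circleAverage g zs r = (1 + δ) * Real.log ‖zs‖ + (m - (m - m') * Real.circleAverage b zs r) := by
    have h1 : CircleIntegrable (fun w : ℂ => (1 + δ) * Real.posLog ‖w‖) zs r :=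
      (Continuous.continuousOn (by fun_prop)).circleIntegrable hrpos.le
    have h2 : CircleIntegrable (fun w : ℂ => m - (m - m') * b w) zs r :=
      (Continuous.continuousOn (by fun_prop)).circleIntegrable hrpos.le
    have h3 : CircleIntegrable (fun w : ℂ => (m - m') * b w) zs r :=
      (Continuous.continuousOn (by fun_prop)).circleIntegrable hrpos.le
    have h4 : CircleIntegrable (fun _ : ℂ => m) zs r :=
      (Continuous.continuousOn (by fun_prop)).circleIntegrable hrpos.le
    rw [hg, Real.circleAverage_fun_add h1 h2, Real.circleAverage_fun_sub h4 h3]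
    have h5 : Real.circleAverage (fun w : ℂ => (1 + δ) * Real.posLog ‖w‖) zs r = (1 + δ) * Real.log ‖zs‖ := by
      have := Real.circleAverage_fun_smul (a := (1 + δ)) (f := fun w : ℂ => Real.posLog ‖w‖) (c := zs) (R := r)
      simp only [smul_eq_mul] at this
      rw [this, avg_posLog zs r hrpos (by rw [hr]; linarith)]
    have h6 : Real.circleAverage (fun w : ℂ => (m - m') * b w) zs r = (m - m') * Real.circleAverage b zs r := by
      have := Real.circleAverage_fun_smul (a := (m - m')) (f := b) (c := zs) (R := r)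
      simp only [smul_eq_mul] at this
      rw [this]
    rw [h5, h6, Real.circleAverage_const]
  rw [havg] at hfin
  have hbpos : 0 < Real.circleAverage b zs r := bump_pos zs q r s hqz
  have h1 : h zs ≤ ((m - (m - m') * Real.circleAverage b zs r : ℝ) : EReal) := by
    rw [hle, hplog zs hzs1']
    exact hfin
  have h2 := EReal.coe_le_coe_iff.1 (le_trans hzsm' h1)
  have h3 : 0 < (m - m') * Real.circleAverage b zs r := mul_pos (by linarith) hbpos
  linarith

end

end Pool.Agent.Run7.h175.BG
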